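import Pool.Agent.NDR.StmtsG

/-!
# Row WLK of squad NDR, block G: walk through the slices
-/

set_option autoImplicit false

namespace Pool.Agent.NDR.H92

open Finset

theorem ms_mono {ι K : Type} [Field K] {Q Q' : Set (ι → ℤ)} (h : Q ⊆ Q') {r : Lr K ι}
    (hr : r ∈ MS K Q) : r ∈ MS K Q' := fun m hm => h (hr m hm)

theorem ms_mul {ι K : Type} [Field K] {Q Q' : Set (ι → ℤ)} {a r : Lr K ι}
    (ha : ∀ m, a.coeff m ≠ 0 → ∀ e ∈ Q, e + m ∈ Q') (hr : r ∈ MS K Q) : a * r ∈ MS K Q' := by
  classical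
  intro m hm
  by_contra hmQ
  apply hm
  rw [AddMonoidAlgebra.coeff_mul]
  refine Finset.sum_eq_zero fun m₁ h₁ => Finset.sum_eq_zero fun m₂ h₂ => if_neg ?_
  intro h
  apply hmQ
  have h3 := ha m₁ (Finsupp.mem_support_iff.1 h₁) m₂ (hr m₂ (Finsupp.mem_support_iff.1 h₂))
  rwa [add_comm, h] at h3

theorem chn_mono {T R : Type} [CommRing R] {S : Finset T} {N N' : AddSubgroup R} {i : ℕ}
    {x : Finset T → R} (h : ∀ r ∈ N, r ∈ N') (hx : Chn S N i x) : Chn S N' i x :=
  fun U => ⟨h _ (hx U).1, (hx U).2⟩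

theorem kd_sub {T R : Type} [CommRing R] (a : T → R) (S : Finset T) (x y : Finset T → R)
    (U : Finset T) : kd a S (fun U => x U - y U) U = kd a S x U - kd a S y U := by
  classical
  unfold kd
  rw [← Finset.sum_sub_distrib]
  refine Finset.sum_congr rfl fun j _ => ?_
  rw [mul_sub, smul_sub]

/-- **Row WLK** -/
theorem wlk (hK : KsgStmt) : WlkStmt := by
  classical
  intro T ι K _ a S Λ time i h0 hfin ha hex hpair x hx hkx
  obtain ⟨-, -, hdd, hstb⟩ := hK T (Lr K ι)
  have hkx' : ∀ U, kd a S x U = 0 := fun U => (AddSubgroup.mem_bot).1 (hkx U)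
  have hQ0 : {e : ι → ℤ | e ∈ Λ ∧ time e = 0} ⊆ Λ := fun e he => he.1
  -- the induction
  have key : ∀ n : ℕ, ∀ t : ℝ, {r : ℝ | (0 < r ∧ r < t) ∧ ∃ e, time e = r}.ncard = n →
      ∀ y, Chn S (MS K {e | e ∈ Λ ∧ (time e < t ∨ time e = 0)}) (i + 1) y →
        (∀ U, kd a S y U = x U) →
        ∃ y', Chn S (MS K {e | e ∈ Λ ∧ time e = 0}) (i + 1) y' ∧ ∀ U, kd a S y' U = x U := by
    intro n
    induction n using Nat.strong_induction_on with
    | _ n ih =>
      intro t hn y hy hky
      have hWfin : {r : ℝ | (0 < r ∧ r < t) ∧ ∃ e, time e = r}.Finite :=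
        (hfin t).subset fun r hr => ⟨hr.1.2.le, hr.2⟩
      rcases Set.eq_empty_or_nonempty {r : ℝ | (0 < r ∧ r < t) ∧ ∃ e, time e = r} with hW | hW
      · refine ⟨y, chn_mono (fun r hr => ms_mono ?_ hr) hy, hky⟩
        rintro e ⟨he, he2⟩
        refine ⟨he, ?_⟩
        rcases he2 with h | h
        · by_contra hne
          have : time e ∈ {r : ℝ | (0 < r ∧ r < t) ∧ ∃ e, time e = r} :=
            ⟨⟨lt_of_le_of_ne (h0 e) (Ne.symm hne), h⟩, e, rfl⟩
          rw [hW] at this
          exact this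
        · exact h
      · obtain ⟨s, hs, hmax⟩ := hWfin.exists_maximal hW
        have hmax' : ∀ r ∈ {r : ℝ | (0 < r ∧ r < t) ∧ ∃ e, time e = r}, r ≤ s := by
          intro r hr
          rcases le_total r s with h | h
          · exact h
          · exact hmax hr h
        obtain ⟨⟨hs0, hst⟩, e₁, he₁⟩ := hs
        -- fewer values below `s`
        have hlt : {r : ℝ | (0 < r ∧ r < s) ∧ ∃ e, time e = r}.ncard < n := by
          rw [← hn]
          refine Set.ncard_lt_ncard ?_ hWfin
          refine ⟨fun r hr => ⟨⟨hr.1.1, hr.1.2.trans hst⟩, hr.2⟩, fun h => ?_⟩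
          have h1 := h (show s ∈ {r : ℝ | (0 < r ∧ r < t) ∧ ∃ e, time e = r} from
            ⟨⟨hs0, hst⟩, e₁, he₁⟩)
          exact lt_irrefl s h1.1.2
        have hle : ∀ e ∈ {e | e ∈ Λ ∧ (time e < t ∨ time e = 0)}, time e ≤ s := by
          rintro e ⟨-, he⟩
          rcases he with h | h
          · rcases (h0 e).lt_or_eq with h2 | h2
            · exact hmax' _ ⟨⟨h2, h⟩, e, rfl⟩
            · rw [← h2]
              exact hs0.le
          · rw [h]
            exact hs0.le
        by_cases hex2 : ∃ e₀ ∈ Λ, time e₀ = s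
        · obtain ⟨e₀, he₀, hts⟩ := hex2
          have hp := hpair e₀ he₀ (by rw [hts]; exact hs0)
          rw [hts] at hp
          have hstab : Stb a S (MS K {e | e ∈ Λ ∧ time e ≤ s}) := by
            intro j hj r hr
            refine ms_mul (fun m hm e he => ?_) hr
            have h1 := ha j hj m hm e he.1
            exact ⟨h1.1, h1.2.trans he.2⟩
          obtain ⟨w, hw, hw2⟩ := hp y
            (chn_mono (fun r hr => ms_mono (fun e he => (⟨he.1, hle e he⟩ : e ∈ Λ ∧ time e ≤ s))
              hr) hy) (by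
              intro U
              rw [hky U]
              refine ms_mono ?_ (hx U).1
              rintro e ⟨he, he2⟩
              exact ⟨he, by rw [he2]; exact hs0⟩)
          have hkw : Chn S (MS K {e | e ∈ Λ ∧ time e ≤ s}) (i + 1) (kd a S w) :=
            hstb a S _ (i + 1) w hstab hw
          refine ih _ hlt s rfl (fun U => y U - kd a S w U) ?_ ?_
          · intro U
            have hsub : {e : ι → ℤ | e ∈ Λ ∧ time e < s} ⊆
                {e | e ∈ Λ ∧ (time e < s ∨ time e = 0)} := fun e he => ⟨he.1, Or.inl he.2⟩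
            refine ⟨ms_mono hsub (hw2 U), fun hne => ?_⟩
            by_cases hyU : y U = 0
            · refine (hkw U).2 fun hk => hne ?_
              show y U - kd a S w U = 0
              rw [hyU, hk, sub_zero]
            · exact (hy U).2 hyU
          · intro U
            rw [kd_sub, hky U, hdd a S w]
            simp
        · refine ih _ hlt s rfl y (chn_mono (fun r hr => ms_mono ?_ hr) hy) hky
          intro e he
          refine ⟨he.1, Or.inl (lt_of_le_of_ne (hle e he) fun h => hex2 ⟨e, he.1, h⟩)⟩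
  -- the start
  obtain ⟨y, hy, hy2⟩ := hex x (chn_mono (fun r hr => ms_mono hQ0 hr) hx) hkx
  have hky : ∀ U, kd a S y U = x U := by
    intro U
    have h1 := (AddSubgroup.mem_bot).1 (hy2 U)
    exact (sub_eq_zero.1 h1).symm
  obtain ⟨t, ht⟩ : ∃ t : ℝ, ∀ U ∈ S.powerset, ∀ m ∈ (y U).coeff.support, time m < t := by
    obtain ⟨b, hb⟩ := ((S.powerset.biUnion fun U => (y U).coeff.support.image time)
      : Finset ℝ).bddAbove
    refine ⟨b + 1, fun U hU m hm => ?_⟩
    have h1 : time m ≤ b := hb (Finset.mem_coe.2 (Finset.mem_biUnion.2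
      ⟨U, hU, Finset.mem_image.2 ⟨m, hm, rfl⟩⟩))
    linarith
  obtain ⟨y', hy', hky'⟩ := key _ t rfl y (by
    intro U
    refine ⟨?_, (hy U).2⟩
    intro m hm
    refine ⟨(hy U).1 m hm, Or.inl ?_⟩
    have hyU : y U ≠ 0 := by
      intro h
      rw [h] at hm
      simp at hm
    exact ht U (Finset.mem_powerset.2 ((hy U).2 hyU).1) m (Finsupp.mem_support_iff.2 hm)) hky
  refine ⟨y', hy', fun U => ?_⟩
  rw [hky' U, sub_self]
  exact AddSubgroup.zero_mem _

end Pool.Agent.NDR.H92
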